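import Pool.Agent.Lib_helper60.PQ.Defs

/-!
# Project PQ, block R3: norms are multiplicative up to norms of elements
-/

set_option autoImplicit false

namespace Pool.Agent.PQ

open Finset Pool.Agent.TM32

/-- the conjugate ideal -/
noncomputable def cj {n : ℕ} (I : Ideal (Od n)) : Ideal (Od n) := I.map (starRingEnd (Od n))

theorem mem_cj {n : ℕ} (I : Ideal (Od n)) (z : Od n) : z ∈ cj I ↔ star z ∈ I := by
  constructor
  · intro h
    have h1 : cj I ≤ I.comap (starRingEnd (Od n)) := by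
      unfold cj
      rw [Ideal.map_le_iff_le_comap]
      intro w hw
      rw [Ideal.mem_comap, Ideal.mem_comap, starRingEnd_self_apply]
      exact hw
    have h2 := h1 h
    rw [Ideal.mem_comap, starRingEnd_apply] at h2
    exact h2
  · intro h
    have h1 := Ideal.mem_map_of_mem (starRingEnd (Od n)) h
    rw [starRingEnd_apply, star_star] at h1
    exact h1

theorem cj_mul {n : ℕ} (I J : Ideal (Od n)) : cj (I * J) = cj I * cj J :=
  Ideal.map_mul _ I J

theorem cj_cj {n : ℕ} (I : Ideal (Od n)) : cj (cj I) = I := by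
  ext z
  rw [mem_cj, mem_cj, star_star]

theorem cj_span {n : ℕ} (g : Od n) : cj (Ideal.span {g}) = Ideal.span {star g} := by
  ext z
  rw [mem_cj, Ideal.mem_span_singleton, Ideal.mem_span_singleton]
  constructor
  · rintro ⟨w, hw⟩
    exact ⟨star w, by rw [← star_star z, hw, star_mul, mul_comm]⟩
  · rintro ⟨w, hw⟩
    exact ⟨star w, by rw [hw, star_mul, star_star, mul_comm]⟩

/-- `I conj(I) = (m)` -/
theorem mul_cj (n m : ℕ) (r : ℤ) (hc : Nat.Coprime m (2 * n)) (hr : (m : ℤ) ∣ r ^ 2 + n)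
    (I : Ideal (Od n)) (hI : ∀ z : Od n, z ∈ I ↔ (m : ℤ) ∣ z.re + r * z.im) :
    I * cj I = Ideal.span {((m : ℤ) : Od n)} := by
  have h1 : IsCoprime (m : ℤ) (n : ℤ) :=
    Nat.isCoprime_iff_coprime.2 (Nat.Coprime.coprime_mul_left_right hc)
  have hc2 : IsCoprime (m : ℤ) 2 := by
    have := Nat.isCoprime_iff_coprime.2 (Nat.Coprime.coprime_mul_right_right hc)
    exact_mod_cast this
  have h2 : IsCoprime (m : ℤ) r := by
    obtain ⟨u, hu⟩ := hr
    have h2 : IsCoprime (m : ℤ) (r ^ 2) := by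
      obtain ⟨a, b, hab⟩ := h1
      exact ⟨a + b * u, -b, by linear_combination hab - b * hu⟩
    exact (IsCoprime.pow_right_iff (by norm_num)).1 h2
  obtain ⟨a, b, hab⟩ := hc2.mul_right h2
  have hm : ((m : ℤ) : Od n) ∈ I := by rw [hI]; simp
  have hw : (⟨-r, 1⟩ : Od n) ∈ I := by rw [hI]; simp
  have hm' : ((m : ℤ) : Od n) ∈ cj I := by rw [mem_cj, hI]; simp
  have hw' : (⟨-r, -1⟩ : Od n) ∈ cj I := by rw [mem_cj, hI]; simp
  apply le_antisymm
  · rw [Ideal.mul_le]
    intro z hz w hw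
    rw [hI] at hz
    rw [mem_cj, hI, Zsqrtd.re_star, Zsqrtd.im_star] at hw
    rw [Ideal.mem_span_singleton, Zsqrtd.intCast_dvd, Zsqrtd.re_mul, Zsqrtd.im_mul]
    obtain ⟨s, hs⟩ := hz
    obtain ⟨t, ht⟩ := hw
    obtain ⟨u, hu⟩ := hr
    have e1 : z.re = m * s - r * z.im := by linear_combination hs
    have e2 : w.re = m * t + r * w.im := by linear_combination ht
    constructor
    · refine ⟨s * w.re - r * z.im * t - u * (z.im * w.im), ?_⟩
      rw [e1, e2]
      linear_combination -(z.im * w.im) * hu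
    · refine ⟨s * w.im + z.im * t, ?_⟩
      rw [e1, e2]
      ring
  · rw [Ideal.span_singleton_le_iff_mem]
    have k1 := Ideal.mul_mem_mul hm hm'
    have k2 := (I * cj I).add_mem (Ideal.mul_mem_mul hm hw') (Ideal.mul_mem_mul hw hm')
    have k3 := (I * cj I).sub_mem ((I * cj I).mul_mem_left ((a : ℤ) : Od n) k1)
      ((I * cj I).mul_mem_left ((b : ℤ) : Od n) k2)
    convert k3 using 1
    apply Zsqrtd.ext
    · simp [Zsqrtd.re_mul, Zsqrtd.im_mul]
      linear_combination -(m : ℤ) * hab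
    · simp [Zsqrtd.re_mul, Zsqrtd.im_mul]

theorem inv_cj (n m : ℕ) (r : ℤ) (hm0 : 0 < m) (hc : Nat.Coprime m (2 * n)) (hr : (m : ℤ) ∣ r ^ 2 + n)
    (I : Ideal (Od n)) (hI : ∀ z : Od n, z ∈ I ↔ (m : ℤ) ∣ z.re + r * z.im) : TM32.Inv (cj I) := by
  refine ⟨I, ((m : ℤ) : Od n), ?_, ?_⟩
  · intro h
    have := congrArg Zsqrtd.re h
    simp at this
    omega
  · rw [mul_comm, mul_cj n m r hc hr I hI]

theorem mk_cj (n : ℕ) [NeZero n] (m : ℕ) (r : ℤ) (hm0 : 0 < m) (hc : Nat.Coprime m (2 * n))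
    (hr : (m : ℤ) ∣ r ^ 2 + n) (I : Ideal (Od n)) (hI : ∀ z : Od n, z ∈ I ↔ (m : ℤ) ∣ z.re + r * z.im)
    (hInv : TM32.Inv I) (hInv' : TM32.Inv (cj I)) : mkI (cj I) hInv' = (mkI I hInv)⁻¹ := by
  have h0 : ((m : ℤ) : Od n) ≠ 0 := by
    intro h
    have := congrArg Zsqrtd.re h
    simp at this
    omega
  have h1 := mkI_mul I (cj I) hInv hInv' (hInv.mul hInv')
  have h2 : mkI (I * cj I) (hInv.mul hInv') = 1 := by
    have : ∀ (K : Ideal (Od n)) (hK : TM32.Inv K), K = Ideal.span {((m : ℤ) : Od n)} → mkI K hK = 1 := by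
      rintro K hK rfl
      exact mkI_span _ h0 hK
    exact this _ _ (mul_cj n m r hc hr I hI)
  rw [h2] at h1
  exact eq_inv_of_mul_eq_one_right h1.symm

theorem princ_of_one' {R : Type} [CommRing R] [IsDomain R] (K : Ideal R) (hK : TM32.Inv K)
    (h : mkI K hK = 1) : ∃ g : R, K = Ideal.span {g} := by
  have h1 := mkI_span (1 : R) one_ne_zero (inv_span 1 one_ne_zero)
  have h2 : mkI K hK = mkI (Ideal.span {(1 : R)}) (inv_span 1 one_ne_zero) := by rw [h, h1]
  obtain ⟨x, y, hx, hy, hxy⟩ := (mkI_eq_iff _ _ _ _).1 h2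
  have h3 : y ∈ Ideal.span {x} * K := by
    rw [hxy, Ideal.span_singleton_mul_span_singleton, mul_one]
    exact Ideal.mem_span_singleton_self y
  obtain ⟨z, hz, hxz⟩ := Ideal.mem_span_singleton_mul.1 h3
  refine ⟨z, span_mul_cancel x hx _ _ ?_⟩
  rw [hxy, Ideal.span_singleton_mul_span_singleton, Ideal.span_singleton_mul_span_singleton, hxz,
    mul_one]

theorem int_span_eq (n : ℕ) (a b : ℤ) (ha : 0 ≤ a) (hb : 0 ≤ b)
    (h : Ideal.span {(a : Od n)} = Ideal.span {(b : Od n)}) : a = b := by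
  have h1 : (a : Od n) ∣ (b : Od n) := by
    rw [← Ideal.mem_span_singleton, h]; exact Ideal.mem_span_singleton_self _
  have h2 : (b : Od n) ∣ (a : Od n) := by
    rw [← Ideal.mem_span_singleton, ← h]; exact Ideal.mem_span_singleton_self _
  rw [Zsqrtd.intCast_dvd] at h1 h2
  have h3 := h1.1
  have h4 := h2.1
  rw [Zsqrtd.re_intCast] at h3 h4
  exact Int.dvd_antisymm ha hb h3 h4

/-- R3 : norms are multiplicative up to norms of elements: `I I' conj I''` is principal of norm `m m' m''` -/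
theorem rp_mul (n : ℕ) [NeZero n] (C C' : ClassGroup (Od n)) (m m' m'' : ℕ) (r r' r'' : ℤ)
    (h : Rp n C m r) (h' : Rp n C' m' r') (h'' : Rp n (C * C') m'' r'') :
    ∃ x y : ℤ, (m * m' * m'' : ℤ) = x ^ 2 + n * y ^ 2 := by
  obtain ⟨hm, hc, hr, I, hI, hz, hIC⟩ := h
  obtain ⟨hm', hc', hr', I', hI', hz', hIC'⟩ := h'
  obtain ⟨hm'', hc'', hr'', I'', hI'', hz'', hIC''⟩ := h''
  have hJ := inv_cj n m'' r'' hm'' hc'' hr'' I'' hz''
  have hJC := mk_cj n m'' r'' hm'' hc'' hr'' I'' hz'' hI'' hJ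
  have h1 : mkI (I * I' * cj I'') ((hI.mul hI').mul hJ) = 1 := by
    rw [mkI_mul _ _ (hI.mul hI') hJ, mkI_mul _ _ hI hI', hJC, hIC, hIC', hIC'', mul_inv_cancel]
  obtain ⟨g, hg⟩ := princ_of_one' _ _ h1
  have h2 : I * I' * cj I'' * cj (I * I' * cj I'') = Ideal.span {(((m * m' * m'' : ℤ)) : Od n)} := by
    rw [cj_mul, cj_mul, cj_cj]
    calc I * I' * cj I'' * (cj I * cj I' * I'') = (I * cj I) * (I' * cj I') * (I'' * cj I'') := by ring
      _ = _ := by
        rw [mul_cj n m r hc hr I hz, mul_cj n m' r' hc' hr' I' hz', mul_cj n m'' r'' hc'' hr'' I'' hz'',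
          Ideal.span_singleton_mul_span_singleton, Ideal.span_singleton_mul_span_singleton]
        congr 2
        push_cast
        rfl
  rw [hg, cj_span, Ideal.span_singleton_mul_span_singleton, ← Zsqrtd.norm_eq_mul_conj] at h2
  have h3 := int_span_eq n _ _ (by rw [od_norm]; positivity) (by positivity) h2
  refine ⟨g.re, g.im, ?_⟩
  rw [← h3, od_norm]

end Pool.Agent.PQ
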